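import Pool.Agent.Lib.MP_eee7a8_ag.TB.Iface4

/-!
# TAGBR, module FINALE: the last step

`U⁺` consists of nonnegative combinations of functions of bracelets, these are linearly independent
and lie in `U⁺`: so the extremal rays are those of the bracelets.
-/

open Matrix

namespace Pool.Agent.Lib.MP_eee7a8_ag.TB.C74

variable {G : Subgroup SLZ} {K : Type} [Field K] [Algebra ℂ K]

/-- Finite sets of functions of bracelets are linearly independent. -/
theorem li_finset (L : Lam G K) (hG : IsSurface G) (hI : IndlStatement) (s : Finset K)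
    (hs : (s : Set K) ⊆ Set.range L.I) : LinearIndepOn ℂ (id : K → K) (s : Set K) := by
  classical
  let e : Fin s.card ≃ s := s.equivFin.symm
  have hch : ∀ i : Fin s.card, ∃ β : Bracelet G, L.I β = (e i : K) := fun i =>
    hs (e i).2
  choose β hβ using hch
  have h := hI G K L hG s.card β (fun i j hij he => hij (e.injective (Subtype.ext (by
    rw [← hβ i, ← hβ j]; exact he))))
  have h2 : LinearIndependent ℂ (fun i : Fin s.card => ((e i : K))) := by
    have : (fun i => L.I (β i)) = fun i : Fin s.card => ((e i : K)) := funext hβ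
    rwa [this] at h
  have h3 : LinearIndependent ℂ (fun x : s => (x : K)) := by
    have h4 := h2.comp e.symm e.symm.injective
    simpa [Function.comp_def] using h4
  exact h3

/-- `U⁺` is a cone. -/
theorem upos_smul (L : Lam G K) (hP : PosrStatement) {x : K} (hx : x ∈ L.Upos) {c : ℝ}
    (hc : 0 ≤ c) : algebraMap ℂ K (c : ℂ) * x ∈ L.Upos := fun T hT =>
  (hP K (L.monomials T)).2.2.1 x (hx T hT) c hc

theorem upos_zero (L : Lam G K) (hP : PosrStatement) : (0 : K) ∈ L.Upos := fun T _ =>
  (hP K (L.monomials T)).2.2.2.2.1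

theorem upos_sum (L : Lam G K) (hP : PosrStatement) (s : Finset K) (f : K → K)
    (h : ∀ y ∈ s, f y ∈ L.Upos) : ∑ y ∈ s, f y ∈ L.Upos := by
  classical
  induction s using Finset.induction_on with
  | empty => simpa using upos_zero L hP
  | insert a s ha ih =>
    rw [Finset.sum_insert ha]
    intro T hT
    exact (hP K (L.monomials T)).2.1 _ (h a (Finset.mem_insert_self a s) T hT) _
      (ih (fun y hy => h y (Finset.mem_insert_of_mem hy)) T hT)

/-- Extend the coefficients of a nonnegative combination by zero. -/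
theorem extend_sum {S : Set K} {x : K} (hx : x ∈ PosSpan S) :
    ∃ (s : Finset K) (c : K → ℝ), (s : Set K) ⊆ S ∧ (∀ y, 0 ≤ c y) ∧ (∀ y, y ∉ s → c y = 0) ∧
      ∀ W : Finset K, s ⊆ W → x = ∑ y ∈ W, ((c y : ℝ) : ℂ) • y := by
  classical
  obtain ⟨s, c, hs, hc, rfl⟩ := hx
  refine ⟨s, fun y => if y ∈ s then c y else 0, hs, fun y => ?_, fun y hy => ?_, fun W hW => ?_⟩
  · by_cases hy : y ∈ s
    · simpa [hy] using hc y hy
    · simp [hy]
  · simp [hy]
  · rw [← Finset.sum_subset hW (f := fun y => (((if y ∈ s then c y else 0 : ℝ)) : ℂ) • y)]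
    · refine Finset.sum_congr rfl fun y hy => ?_
      simp [hy, Algebra.smul_def]
    · intro y _ hy
      simp [hy]

/-- The last step. -/
theorem finale : FinaleStatement := by
  intro hP hQ hI hS hE
  classical
  refine ⟨hE, ?_⟩
  intro G K _ _ L hG
  have hnz : ∀ β : Bracelet G, L.I β ≠ 0 := by
    intro β
    have h := hI G K L hG 1 (fun _ => β) (fun i j hij => absurd (Subsingleton.elim i j) hij)
    exact h.ne_zero 0
  have hsp : L.Upos ⊆ PosSpan (Set.range L.I) := hS G K L hG
  refine ⟨hnz, ?_, hsp⟩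
  intro z hz
  constructor
  · rintro ⟨hzU, hext⟩
    obtain ⟨s, c, hs, hc, hc0, hsum⟩ := extend_sum (hsp hzU)
    have hz1 : z = ∑ y ∈ s, ((c y : ℝ) : ℂ) • y := hsum s (Finset.Subset.refl s)
    have hex : ∃ y ∈ s, ((c y : ℝ) : ℂ) • y ≠ 0 := by
      by_contra hcon
      push Not at hcon
      exact hz (by rw [hz1]; exact Finset.sum_eq_zero hcon)
    obtain ⟨y0, hy0, hy0ne⟩ := hex
    obtain ⟨β, hβ⟩ := hs hy0
    have hcne : ((c y0 : ℝ) : ℂ) ≠ 0 := fun h => hy0ne (by rw [h, zero_smul])
    have hcpos : 0 < c y0 := lt_of_le_of_ne (hc y0) (fun h => hcne (by rw [← h]; simp))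
    have hsplit : z = ((c y0 : ℝ) : ℂ) • y0 + ∑ y ∈ s.erase y0, ((c y : ℝ) : ℂ) • y := by
      rw [hz1, Finset.add_sum_erase s (fun y => ((c y : ℝ) : ℂ) • y) hy0]
    have hmem : ∀ y ∈ s, ((c y : ℝ) : ℂ) • y ∈ L.Upos := by
      intro y hy
      obtain ⟨β', hβ'⟩ := hs hy
      rw [Algebra.smul_def, ← hβ']
      exact upos_smul L hP (hQ G K L hG β') (hβ' ▸ hc _)
    have hnl := hext _ (hmem y0 hy0) _ (upos_sum L hP (s.erase y0) _
      (fun y hy => hmem y (Finset.mem_of_mem_erase hy))) hsplit
    rw [LinearIndependent.pair_iff' hy0ne] at hnl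
    push Not at hnl
    obtain ⟨a, ha⟩ := hnl
    -- the coefficients vanish
    have hli := li_finset L hG hI s hs
    rw [linearIndepOn_finset_iff] at hli
    have hv := hli (fun y => if y = y0 then -(a * ((c y0 : ℝ) : ℂ)) else ((c y : ℝ) : ℂ)) (by
      rw [← Finset.add_sum_erase s _ hy0]
      have h1 : ∑ y ∈ s.erase y0, (if y = y0 then -(a * ((c y0 : ℝ) : ℂ)) else ((c y : ℝ) : ℂ)) •
          (id y : K) = ∑ y ∈ s.erase y0, ((c y : ℝ) : ℂ) • y := by
        refine Finset.sum_congr rfl fun y hy => ?_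
        rw [if_neg (Finset.ne_of_mem_erase hy)]
        rfl
      rw [h1, ← ha, if_pos rfl, neg_smul, mul_smul]
      exact neg_add_cancel _)
    have hrest : ∑ y ∈ s.erase y0, ((c y : ℝ) : ℂ) • y = 0 := by
      refine Finset.sum_eq_zero fun y hy => ?_
      have := hv y (Finset.mem_of_mem_erase hy)
      rw [if_neg (Finset.ne_of_mem_erase hy)] at this
      rw [this, zero_smul]
    refine ⟨c y0, β, hcpos, ?_⟩
    rw [hsplit, hrest, add_zero, hβ, Algebra.smul_def]
  · rintro ⟨c, β, hc, rfl⟩
    refine ⟨upos_smul L hP (hQ G K L hG β) hc.le, ?_⟩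
    intro x hx y hy hxy hli2
    obtain ⟨s, a, hs, ha, ha0, hsx⟩ := extend_sum (hsp hx)
    obtain ⟨t, b, ht, hb, hb0, hty⟩ := extend_sum (hsp hy)
    set W : Finset K := insert (L.I β) (s ∪ t) with hW
    have hx1 := hsx W (fun u hu => Finset.mem_insert_of_mem (Finset.mem_union_left t hu))
    have hy1 := hty W (fun u hu => Finset.mem_insert_of_mem (Finset.mem_union_right s hu))
    have hWB : (W : Set K) ⊆ Set.range L.I := by
      intro u hu
      rw [Finset.mem_coe, hW, Finset.mem_insert, Finset.mem_union] at hu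
      rcases hu with rfl | hu | hu
      · exact ⟨β, rfl⟩
      · exact hs hu
      · exact ht hu
    have hβW : L.I β ∈ W := Finset.mem_insert_self _ _
    have hli := li_finset L hG hI W hWB
    rw [linearIndepOn_finset_iff] at hli
    have hv := hli (fun u => ((a u : ℝ) : ℂ) + ((b u : ℝ) : ℂ) -
      (if u = L.I β then (c : ℂ) else 0)) (by
      simp only [id, sub_smul, add_smul, Finset.sum_sub_distrib, Finset.sum_add_distrib]
      rw [← hx1, ← hy1, ← hxy, sub_eq_zero]
      rw [Finset.sum_eq_single (L.I β)]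
      · rw [if_pos rfl, Algebra.smul_def]
      · intro u _ hu
        rw [if_neg hu, zero_smul]
      · intro h
        exact absurd hβW h)
    have hzero : ∀ u ∈ W, u ≠ L.I β → a u = 0 ∧ b u = 0 := by
      intro u hu hne
      have h := hv u hu
      simp only [if_neg hne, sub_zero] at h
      have h' : a u + b u = 0 := by exact_mod_cast h
      have h1 := ha u
      have h2 := hb u
      constructor <;> linarith
    have hx2 : x = ((a (L.I β) : ℝ) : ℂ) • L.I β := by
      rw [hx1]
      refine Finset.sum_eq_single_of_mem _ hβW fun u hu hne => ?_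
      rw [(hzero u hu hne).1]
      simp
    have hy2 : y = ((b (L.I β) : ℝ) : ℂ) • L.I β := by
      rw [hy1]
      refine Finset.sum_eq_single_of_mem _ hβW fun u hu hne => ?_
      rw [(hzero u hu hne).2]
      simp
    rw [LinearIndependent.pair_iff] at hli2
    have h1 := hli2 (((b (L.I β) : ℝ) : ℂ)) (-((a (L.I β) : ℝ) : ℂ)) (by
      rw [hx2, hy2, smul_smul, smul_smul, ← add_smul]
      have : ((b (L.I β) : ℝ) : ℂ) * ((a (L.I β) : ℝ) : ℂ) +
        -((a (L.I β) : ℝ) : ℂ) * ((b (L.I β) : ℝ) : ℂ) = 0 := by ring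
      rw [this, zero_smul])
    have h2 := hli2 1 0 (by
      have hneg : ((a (L.I β) : ℝ) : ℂ) = 0 := neg_eq_zero.mp h1.2
      rw [hx2, hneg]
      simp)
    exact one_ne_zero h2.1

end Pool.Agent.Lib.MP_eee7a8_ag.TB.C74
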