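import Pool.Agent.Lib.MP_eee7a8_ag.TB.Iface4

/-!
# TAGBR, module PPT: a good triangulation containing the arcs of a system
-/

open Matrix

namespace Pool.Agent.Lib.MP_eee7a8_ag.TB.C74

variable {G : Subgroup SLZ}

theorem sameArc_smul {a b c d : Cusp} (h : SameArc G a b c d) {k : SLZ} (hk : k ∈ G) :
    SameArc G a b (k • c) (k • d) := by
  obtain ⟨g, hg, h⟩ := h
  refine ⟨k * g, G.mul_mem hk hg, ?_⟩
  rw [mul_smul, mul_smul]
  rcases h with ⟨h1, h2⟩ | ⟨h1, h2⟩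
  · exact Or.inl ⟨by rw [h1], by rw [h2]⟩
  · exact Or.inr ⟨by rw [h1], by rw [h2]⟩

theorem ge_smul {e : Option (Cusp × Cusp)} {a b : Cusp} (h : Ge G e a b) {k : SLZ} (hk : k ∈ G) :
    Ge G e (k • a) (k • b) := by
  obtain ⟨p, hp, h⟩ := h
  exact ⟨p, hp, sameArc_smul h hk⟩

/-- Crossing of translates. -/
theorem cross_sameArc {p q : Cusp × Cusp} {a b c d : Cusp} (h1 : SameArc G p.1 p.2 a b)
    (h2 : SameArc G q.1 q.2 c d) (hc : Cross a b c d) :
    ∃ g ∈ G, Cross p.1 p.2 (g • q.1) (g • q.2) := by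
  obtain ⟨g, hg, h1⟩ := h1
  obtain ⟨k, hk, h2⟩ := h2
  refine ⟨g⁻¹ * k, G.mul_mem (G.inv_mem hg) hk, ?_⟩
  rw [← cross_smul g, mul_smul, mul_smul, smul_inv_smul, smul_inv_smul]
  rcases h1 with ⟨h1, h1'⟩ | ⟨h1, h1'⟩ <;> rcases h2 with ⟨h2, h2'⟩ | ⟨h2, h2'⟩ <;>
    rw [h1, h1', h2, h2']
  · exact hc
  · exact cross_comm_right.1 hc
  · exact cross_comm_left.1 hc
  · exact cross_comm_left.1 (cross_comm_right.1 hc)

/-- Good triangulations containing the arcs of a system. -/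
theorem ppt (h1 : FareyStatement) (h2 : MaxFlipStatement) (h3 : MonoStatement) :
    PptStatement := by
  intro G hG e he β hβ
  classical
  set l : List (Cusp × Cusp) := e.toList ++ β.arcs with hl
  let Q : Fam (Fin l.length) := ⟨fun i => (l.get i).1, fun i => (l.get i).2⟩
  have hQE : ∀ a b, Q.E G a b ↔ ∃ p ∈ l, SameArc G p.1 p.2 a b := by
    intro a b
    constructor
    · rintro ⟨i, hi⟩
      exact ⟨l.get i, List.get_mem l i, hi⟩
    · rintro ⟨p, hp, hpa⟩
      obtain ⟨i, rfl⟩ := List.get_of_mem hp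
      exact ⟨i, hpa⟩
  have hmem : ∀ p, p ∈ l ↔ e = some p ∨ p ∈ β.arcs := by
    intro p
    rw [hl, List.mem_append, Option.mem_toList]
  have hGe : ∀ a b, Ge G e a b → Q.E G a b := by
    rintro a b ⟨p, hp, hpa⟩
    exact (hQE a b).2 ⟨p, (hmem p).2 (Or.inl hp), hpa⟩
  have hNC : Q.NonCross G := by
    refine ⟨fun i => ?_, ?_⟩
    · rcases (hmem _).1 (List.get_mem l i) with h | h
      · exact (he _ h).1.1
      · exact β.ne _ h
    · intro a b c d hab hcd hc
      obtain ⟨p, hp, hpa⟩ := (hQE a b).1 hab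
      obtain ⟨q, hq, hqa⟩ := (hQE c d).1 hcd
      obtain ⟨g, hg, hx⟩ := cross_sameArc hpa hqa hc
      rcases (hmem p).1 hp with hpe | hpb <;> rcases (hmem q).1 hq with hqe | hqb
      · have : p = q := by
          rw [hpe] at hqe
          exact Option.some_injective _ hqe
        subst this
        exact (he p hpe).1.2 g hg hx
      · have h5 := hβ.nc q hqb (g⁻¹ • p.1) (g⁻¹ • p.2)
          ⟨p, hpe, g⁻¹, G.inv_mem hg, Or.inl ⟨rfl, rfl⟩⟩
        apply h5
        rw [← cross_smul g, smul_inv_smul, smul_inv_smul]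
        exact cross_swap.1 hx
      · exact hβ.nc p hpb (g • q.1) (g • q.2) ⟨q, hqe, g, hg, Or.inl ⟨rfl, rfl⟩⟩ hx
      · exact β.nocross p hpb q hqb g hg hx
  obtain ⟨n, T, hT, -⟩ := h1 G hG
  obtain ⟨T1, hT1, -, hQ1⟩ := h2 G hG (Fin n) (Fin l.length) T Q hT hNC
  obtain ⟨T2, hT2, -, hQ2, hmono⟩ := h3 G hG (Fin n) (Fin l.length) T1 Q hT1 hQ1
  refine ⟨n, T2, ⟨hT2, fun a b h => hQ2 a b (hGe a b h), ?_⟩, ?_⟩
  · intro a b c hab hbc hac hE
    -- `c = g a` with `g b = b`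
    obtain ⟨p, hp, g1, hg1, hA⟩ := id hab
    obtain ⟨p', hp', g2, hg2, hB⟩ := id hbc
    have hpp : p' = p := by
      rw [hp] at hp'
      exact (Option.some_injective _ hp').symm
    subst hpp
    have hadm := (he p' hp).2
    have hg : ∃ g ∈ G, g • b = b ∧ g • a = c := by
      refine ⟨g2 * g1⁻¹, G.mul_mem hg2 (G.inv_mem hg1), ?_⟩
      rcases hA with ⟨h4, h5⟩ | ⟨h4, h5⟩ <;> rcases hB with ⟨h6, h7⟩ | ⟨h6, h7⟩
      · exfalso
        refine hadm (g1⁻¹ * g2) (G.mul_mem (G.inv_mem hg1) hg2) ?_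
        rw [mul_smul, h6, ← h5, inv_smul_smul]
      · constructor
        · rw [mul_smul]
          nth_rw 1 [← h5]
          rw [inv_smul_smul, h7]
        · rw [mul_smul, ← h4, inv_smul_smul, h6]
      · constructor
        · rw [mul_smul]
          nth_rw 1 [← h4]
          rw [inv_smul_smul, h6]
        · rw [mul_smul, ← h5, inv_smul_smul, h7]
      · exfalso
        refine hadm (g2⁻¹ * g1) (G.mul_mem (G.inv_mem hg2) hg1) ?_
        rw [mul_smul, h4, ← h7, inv_smul_smul]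
    obtain ⟨g, hgG, hgb, hga⟩ := hg
    have hQac := hmono g hgG a b hgb (by rw [hga]; exact hE)
    rw [hga] at hQac
    obtain ⟨q, hq, k, hk, hqa⟩ := (hQE a c).1 hQac
    rcases (hmem q).1 hq with hqe | hqb
    · have hqq : p' = q := by
        rw [hp] at hqe
        exact Option.some_injective _ hqe
      subst hqq
      rcases hqa with ⟨h4, h5⟩ | ⟨h4, h5⟩
      · refine hadm (k⁻¹ * g * k) (G.mul_mem (G.mul_mem (G.inv_mem hk) hgG) hk) ?_
        rw [mul_smul, h4, mul_smul, hga, ← h5, inv_smul_smul]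
      · refine hadm (k⁻¹ * g⁻¹ * k) (G.mul_mem (G.mul_mem (G.inv_mem hk) (G.inv_mem hgG)) hk) ?_
        rw [mul_smul, h4, mul_smul, ← hga, inv_smul_smul, ← h5, inv_smul_smul]
    · have hs : Sim G e a c := Relation.EqvGen.trans _ _ _ (Relation.EqvGen.rel _ _ hab)
        (Relation.EqvGen.rel _ _ hbc)
      have hki := G.inv_mem hk
      have hs' : Sim G e (k⁻¹ • a) (k⁻¹ • c) :=
        Relation.EqvGen.trans _ _ _ (Relation.EqvGen.rel _ _ (ge_smul hab hki))
          (Relation.EqvGen.rel _ _ (ge_smul hbc hki))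
      rcases hqa with ⟨h4, h5⟩ | ⟨h4, h5⟩
      · rw [← h4, ← h5, inv_smul_smul, inv_smul_smul] at hs'
        exact hβ.ns q hqb hs'
      · rw [← h4, ← h5, inv_smul_smul, inv_smul_smul] at hs'
        exact hβ.ns q hqb (Relation.EqvGen.symm _ _ hs')
  · intro p hp
    refine hQ2 _ _ ((hQE _ _).2 ⟨p, (hmem p).2 (Or.inr hp), 1, G.one_mem, Or.inl ⟨?_, ?_⟩⟩)
    · rw [one_smul]
    · rw [one_smul]

end Pool.Agent.Lib.MP_eee7a8_ag.TB.C74
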